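import Pool.Agent.U810.NA.Near
import Pool.Agent.Y939.NC.Reg

set_option autoImplicit false

/-! The regular vectors with the explicit number `150` of points. -/

namespace Pool.Agent.U810.IR

open MvPolynomial Finset Pool.Agent.H932R3 Pool.Agent.TH442.NF Pool.Agent.Y939.NC

theorem reg150 : RegExp 150 := by
  obtain ⟨N1, hN1⟩ := Pool.Agent.Y939.NC.reg_exp
  intro k v hv K _ _
  rcases hv with h | ⟨hk, m, h0, hm⟩ | h | h
  · exact hN1 k v (Or.inl h) K
  · rcases hk with hk | hk | hk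
    · exact Pool.Agent.U810.NA.near_all hk h0 hm
    · exact hN1 k v (Or.inr (Or.inl ⟨Or.inr (Or.inl hk), m, h0, hm⟩)) K
    · exact hN1 k v (Or.inr (Or.inl ⟨Or.inr (Or.inr hk), m, h0, hm⟩)) K
  · exact hN1 k v (Or.inr (Or.inr (Or.inl h))) K
  · exact hN1 k v (Or.inr (Or.inr (Or.inr h))) K

/-- Regular vectors have many points. -/
theorem reg_sum {N0 : ℕ} (hN0 : 13 ≤ N0) {k : ℕ} {v : Fin k → ℕ} (hv : Regular N0 v) :
    13 ≤ ∑ i, v i ∧ ∀ i, 4 * v i ≤ ∑ j, v j := by
  have hlow : ∀ m : ℕ, (∀ i, m ≤ v i) → k * m ≤ ∑ i, v i := by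
    intro m hm
    have h1 : ∑ _i : Fin k, m ≤ ∑ i, v i := sum_le_sum fun i _ => hm i
    simpa using h1
  rcases hv with ⟨hk, m, h0, hm⟩ | ⟨hk, m, h0, hm⟩ | ⟨hk, h0, μ, r, h1, h2, h3⟩ | ⟨μ, h1, h2⟩
  · have h1 := hlow m fun i => (hm i).ge
    have h2 : 13 * m ≤ k * m := Nat.mul_le_mul_right _ (by omega)
    refine ⟨by omega, fun i => ?_⟩
    rw [hm i]
    omega
  · have h1 := hlow m fun i => by rcases hm i with h | h <;> omega
    have hk13 : 13 ≤ k := by
      rcases hk with h | ⟨h, -⟩ | ⟨j, h | h | h⟩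
      · omega
      · omega
      · have : 1 ≤ 4 ^ j := Nat.one_le_pow _ _ (by norm_num)
        rw [h, pow_add]
        omega
      · have : 1 ≤ 4 ^ j := Nat.one_le_pow _ _ (by norm_num)
        rw [h, pow_add]
        omega
      · have : 1 ≤ 4 ^ j := Nat.one_le_pow _ _ (by norm_num)
        omega
    have h2 : 13 * m ≤ k * m := Nat.mul_le_mul_right _ hk13
    refine ⟨by omega, fun i => ?_⟩
    rcases hm i with h | h <;> omega
  · have hμ : 1 ≤ μ := (h0 ⟨0, hk⟩).trans (h1 _)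
    have hr : 1 ≤ r := by
      refine le_trans ?_ h2
      rw [Nat.one_le_iff_ne_zero, Finset.card_ne_zero]
      exact ⟨v ⟨0, hk⟩, mem_image_of_mem _ (mem_univ _)⟩
    have e1 : ∑ i, v i ^ 2 ≤ μ * ∑ i, v i := by
      rw [mul_sum]
      refine sum_le_sum fun i _ => ?_
      rw [pow_two]
      exact Nat.mul_le_mul_right _ (h1 i)
    have e2 : 40000 * μ ^ 2 ≤ 40000 * r * μ ^ 2 :=
      Nat.mul_le_mul_right _ (by omega)
    have e3 : μ * (40000 * μ) ≤ μ * ∑ i, v i := by
      calc μ * (40000 * μ) = 40000 * μ ^ 2 := by ring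
        _ ≤ _ := e2.trans (h3.trans e1)
    have e4 := Nat.le_of_mul_le_mul_left e3 hμ
    refine ⟨by omega, fun i => ?_⟩
    have := h1 i
    omega
  · rcases h2 with h2 | ⟨h0, h2⟩
    · have e1 : μ + 1 ≤ (μ + 1) ^ 2 := by nlinarith
      refine ⟨by omega, fun i => ?_⟩
      have := h1 i
      omega
    · have e1 : μ ≤ μ ^ 3 := by
        calc μ = μ ^ 1 := (pow_one μ).symm
          _ ≤ μ ^ 3 := Nat.pow_le_pow_right (by omega) (by norm_num)
      refine ⟨by omega, fun i => ?_⟩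
      have := h1 i
      omega

theorem almost_sum {N0 : ℕ} (hN0 : 13 ≤ N0) {n : ℕ} {v : Fin n → ℕ} (hv : AlmostRegular N0 v) :
    13 ≤ ∑ i, v i ∧ ∀ i, 4 * v i ≤ ∑ j, v j := by
  obtain ⟨k, e, hr, h1⟩ := hv
  obtain ⟨s1, s2⟩ := reg_sum hN0 hr
  have hle : ∑ j, v (e j) ≤ ∑ i, v i := by
    rw [← Finset.sum_map Finset.univ e v]
    exact sum_le_sum_of_subset (subset_univ _)
  refine ⟨by omega, fun i => ?_⟩
  by_cases hi : i ∈ Set.range e
  · obtain ⟨j, rfl⟩ := hi
    have := s2 j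
    omega
  · have := h1 i hi
    omega

/-- The arithmetic genus is not negative. -/
theorem genus_nonneg {n d : ℕ} {v : Fin n → ℕ} (h4 : ∀ i, 4 * v i ≤ ∑ j, v j)
    (hd : ∑ i, (v i + 1).choose 2 ≤ (d + 2).choose 2) :
    ∑ i, (v i).choose 2 ≤ d.choose 2 := by
  obtain ⟨S, hS⟩ : ∃ S, S = ∑ i, v i := ⟨_, rfl⟩
  rw [← hS] at h4
  have e1 : ∑ i, (v i + 1).choose 2 = ∑ i, (v i).choose 2 + S := by
    rw [hS, ← sum_add_distrib]
    refine sum_congr rfl fun i _ => ?_
    have := Nat.choose_succ_succ (v i) 1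
    simp only [Nat.choose_one_right] at this
    rw [show v i + 1 = (v i).succ by rfl, this]
    exact Nat.add_comm _ _
  have two : ∀ x : ℕ, 2 * x.choose 2 + x = x * x := by
    intro x
    rcases x with _ | x
    · rfl
    · rw [Nat.choose_two_right, Nat.add_sub_cancel, Nat.mul_div_cancel' (by
        rw [mul_comm]
        exact (Nat.even_mul_succ_self x).two_dvd)]
      ring
  have e2 : (d + 2).choose 2 = d.choose 2 + (2 * d + 1) := by
    have h1 := two (d + 2)
    have h2 := two d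
    have h3 : (d + 2) * (d + 2) = d * d + 4 * d + 4 := by ring
    omega
  rcases Nat.lt_or_ge (2 * d) S with h | h
  · omega
  · have e3 : 2 * ∑ i, (v i).choose 2 + S = ∑ i, v i * v i := by
      rw [hS, mul_sum, ← sum_add_distrib]
      exact sum_congr rfl fun i _ => two (v i)
    have e4 : 4 * ∑ i, v i * v i ≤ S * S := by
      calc 4 * ∑ i, v i * v i = ∑ i, (4 * v i) * v i := by
            rw [mul_sum]
            exact sum_congr rfl fun i _ => by ring
        _ ≤ ∑ i, S * v i := sum_le_sum fun i _ => Nat.mul_le_mul_right _ (h4 i)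
        _ = S * S := by rw [← mul_sum, ← hS]
    have e5 := two d
    have e6 : S * S ≤ 2 * d * S := Nat.mul_le_mul_right _ h
    have e7 : 2 * d * S ≤ 2 * d * (2 * d) := Nat.mul_le_mul_left _ h
    -- 8 X + 4 S ≤ S * S ≤ 4 d * d ; 2 (d choose 2) = d * d - d
    have e8 : 8 * ∑ i, (v i).choose 2 + 4 * S ≤ S * S := by omega
    rcases Nat.lt_or_ge S d with h5 | h5
    · have e9 : S * S ≤ d * S := Nat.mul_le_mul_right _ h5.le
      nlinarith
    · nlinarith

end Pool.Agent.U810.IR
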