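import Pool.Agent.U810.IR.Elim
import Pool.Agent.U810.IR.Reg
import Pool.Agent.H248R5.Gen

set_option autoImplicit false

/-! Irreducible smooth general members for almost regular vectors. -/

namespace Pool.Agent.U810.IR

open MvPolynomial Finset Pool.Agent.H248R5 Pool.Agent.H248R6 Pool.Agent.H932R3
  Pool.Agent.TH442.NF Pool.Agent.Y939.NC

theorem general_and {K : Type*} [Field K] {V : Submodule K (MvPolynomial (Fin 3) K)}
    {p q : MvPolynomial (Fin 3) K → Prop} (hp : GeneralMember V p) (hq : GeneralMember V q) :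
    GeneralMember V (fun G => p G ∧ q G) := by
  intro N b
  obtain ⟨Φ, hΦ, h1⟩ := hp N b
  obtain ⟨Ψ, hΨ, h2⟩ := hq N b
  refine ⟨Φ * Ψ, mul_ne_zero hΦ hΨ, fun t ht => ?_⟩
  rw [map_mul] at ht
  exact ⟨h1 t (left_ne_zero_of_mul ht), h2 t (right_ne_zero_of_mul ht)⟩

/-- simple points -/
theorem simple_exp {n : ℕ} {v : Fin n → ℕ} (hv : ∀ i, v i ≤ 1) {K : Type} [Field K] [CharZero K]
    {P : Fin n → Fin 2 → K}
    (hP : AlgebraicIndependent ℚ (fun ij : Fin n × Fin 2 => P ij.1 ij.2)) (d : ℕ) :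
    ExpDim K v P d := by
  have e : Fin 0 ↪ Fin n := ⟨Fin.elim0, fun i => i.elim0⟩
  have h2 := Pool.Agent.TH885.CO.exp_plus e (w := v) (d := d) (fun i _ => hv i)
    ⟨1, one_ne_zero, fun Q _ => by
      have h1 : Module.finrank K ↥(forms (fun j : Fin 0 => v (e j)) Q d) =
          (d + 2).choose 2 - ∑ j : Fin 0, (v (e j) + 1).choose 2 := by
        have h3 : forms (fun j : Fin 0 => v (e j)) Q d = homogeneousSubmodule (Fin 3) K d := by
          unfold forms
          rw [iInf_of_isEmpty]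
          simp
        rw [h3, finrank_homog]
        simp
      exact h1⟩ hP
  have h3 : Module.finrank K ↥(Pool.Agent.TH167.SHDefs.sys P d v) =
      (d + 2).choose 2 - ∑ j, (v j + 1).choose 2 := by
    rw [Pool.Agent.TH885.CO.sys_eq]
    exact h2
  exact h3

theorem surj_of {n : ℕ} {K : Type} [Field K] {w u : Fin n → ℕ} {P : Fin n → Fin 2 → K} {d : ℕ}
    (h : ExpDim K w P d) (hd : ∑ i, (w i + 1).choose 2 ≤ (d + 2).choose 2)
    (hu : ∀ i, u i ≤ w i) : Function.Surjective (ev u P d) := by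
  refine surj_mono hu (surj_of_ind ?_)
  have h1 : Module.finrank K ↥(forms w P d) = (d + 2).choose 2 - ∑ i, (w i + 1).choose 2 := h
  omega

/-- **Theorem.** All systems above an almost regular vector. -/
theorem irr_smooth {n d : ℕ} {v : Fin n → ℕ} (hv : AlmostRegular 150 v)
    (hv' : AlmostRegular 150 (fun i => v i - 1) ∨ ∀ i, v i ≤ 2)
    (hd : ∑ i, (v i + 1).choose 2 ≤ (d + 2).choose 2) :
    ∃ F : MvPolynomial (Fin n × Fin 2) ℚ, F ≠ 0 ∧ ∀ (K : Type) [Field K] [CharZero K]
      (P : Fin n → Fin 2 → K), aeval (fun ij : Fin n × Fin 2 => P ij.1 ij.2) F ≠ 0 →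
      Function.Injective P → ∀ u : Fin n → ℕ, (∀ i, u i ≤ v i) →
        Module.finrank K ↥(forms u P (d + 1)) + ∑ i, (u i + 1).choose 2 = (d + 3).choose 2 ∧
        GeneralMember (forms u P (d + 1)) (fun G => Irreducible G ∧ SmoothMember u P G) := by
  classical
  obtain ⟨s1, s2⟩ := almost_sum (by norm_num) hv
  have hg := genus_nonneg s2 hd
  have hd4 : 4 ≤ d := by
    by_contra hcon
    push Not at hcon
    have h1 : ∑ i, v i ≤ ∑ i, (v i + 1).choose 2 := by
      refine sum_le_sum fun i _ => ?_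
      have := Nat.choose_succ_succ (v i) 1
      simp only [Nat.choose_one_right] at this
      rw [show v i + 1 = (v i).succ by rfl, this]
      exact Nat.le_add_right _ _
    have h2 : (d + 2).choose 2 ≤ 10 := by interval_cases d <;> decide
    omega
  obtain ⟨c, rfl⟩ : ∃ c, d = c + 2 := ⟨d - 2, by omega⟩
  obtain ⟨F1, hF1, h1⟩ := Pool.Agent.TH442.NF.to_open (d := c + 2) (w := v)
    fun {K} _ _ P hP => almost_exp reg150 hv hP (c + 2)
  obtain ⟨F2, hF2, h2⟩ := Pool.Agent.TH442.NF.to_open (d := c) (w := fun i => v i - 1)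
    fun {K} _ _ P hP => by
      rcases hv' with h | h
      · exact almost_exp reg150 h hP c
      · exact simple_exp (fun i => by have := h i; omega) hP c
  refine ⟨F1 * F2, mul_ne_zero hF1 hF2, fun K _ _ P hP hinj u hu => ?_⟩
  rw [map_mul] at hP
  have g1 := surj_of (h1 (L := K) P (left_ne_zero_of_mul hP)) hd hu
  have hsum : ∑ i, ((v i - 1) + 1).choose 2 = ∑ i, (v i).choose 2 := by
    refine sum_congr rfl fun i _ => ?_
    rcases v i with _ | x
    · rfl
    · rfl
  have g2 : Function.Surjective (ev (fun i => u i - 1) P c) :=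
    surj_of (h2 (L := K) P (right_ne_zero_of_mul hP)) (by rw [hsum]; exact hg)
      (fun i => Nat.sub_le_sub_right (hu i) 1)
  refine ⟨finrank_of_surj (surj_succ g1), general_and (general_irr g1 g2) ?_⟩
  exact general_smooth hinj (finrank_of_surj g1).le

end Pool.Agent.U810.IR
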