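import Pool.Agent.U810.IR.Gen
import Pool.Agent.H248R6.Elim

set_option autoImplicit false

/-! From the generic to the general member. -/

namespace Pool.Agent.U810.IR

open MvPolynomial Pool.Agent.H248R5 Pool.Agent.H248R6

/-- Elimination: if a system of equations with coefficients in a polynomial ring has no solution over
the fields with derivations dual to the variables, then it implies a nontrivial equation between the
variables. -/
theorem elimD {K : Type} [Field K] [CharZero K] {τ : Type} [Finite τ] {N : ℕ}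
    (J : Ideal (MvPolynomial τ (MvPolynomial (Fin N) K)))
    (H : ∀ (L : Type) [Field L] [Algebra K L] (t : Fin N → L) (D : Fin N → Derivation K L L),
      (∀ i j, D i (t j) = if i = j then 1 else 0) → ∀ q : τ → L,
        ¬ ∀ p ∈ J, eval₂ ((aeval t : MvPolynomial (Fin N) K →ₐ[K] L) :
          MvPolynomial (Fin N) K →+* L) q p = 0) :
    ∃ s : MvPolynomial (Fin N) K, s ≠ 0 ∧ (C s : MvPolynomial τ (MvPolynomial (Fin N) K)) ∈ J := by
  classical
  by_contra hcon
  push Not at hcon
  let A := MvPolynomial (Fin N) K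
  let F := FractionRing A
  let B := MvPolynomial τ A
  let BF := MvPolynomial τ F
  have hdis : Disjoint (((nonZeroDivisors A).map (C (σ := τ)) : Submonoid B) : Set B)
      (J : Set B) := by
    rw [Set.disjoint_left]
    rintro _ ⟨s, hs, rfl⟩ hsJ
    exact hcon s (nonZeroDivisors.ne_zero hs) hsJ
  let _ : Algebra B BF := MvPolynomial.algebraMvPolynomial
  have hmap : ∀ x : B, algebraMap B BF x = MvPolynomial.map (algebraMap A F) x := fun x => by
    rw [MvPolynomial.algebraMap_def]
  have hne : J.map (algebraMap B BF) ≠ ⊤ :=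
    (IsLocalization.map_algebraMap_ne_top_iff_disjoint
      ((nonZeroDivisors A).map (C (σ := τ))) BF J).2 hdis
  obtain ⟨m, hm, hJm⟩ := Ideal.exists_le_maximal _ hne
  let _ : Field (BF ⧸ m) := Ideal.Quotient.field m
  have : Algebra.FiniteType F (BF ⧸ m) :=
    Algebra.FiniteType.of_surjective (Ideal.Quotient.mkₐ F m) Ideal.Quotient.mk_surjective
  have : Module.Finite F (BF ⧸ m) := finite_of_finite_type_of_isJacobsonRing F (BF ⧸ m)
  have : Algebra.FormallyEtale F (BF ⧸ m) := Algebra.FormallyEtale.of_isSeparable F (BF ⧸ m)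
  have : Algebra.FormallyEtale A F :=
    Algebra.FormallyEtale.of_isLocalization (nonZeroDivisors A)
  have : Algebra.FormallyEtale A (BF ⧸ m) := Algebra.FormallyEtale.comp A F (BF ⧸ m)
  have hex : ∀ i : Fin N, ∃ D' : Derivation K (BF ⧸ m) (BF ⧸ m),
      ∀ a : A, D' (algebraMap A (BF ⧸ m) a) = algebraMap A (BF ⧸ m) (pderiv i a) :=
    fun i => exists_derivation (pderiv i)
  choose D hD using hex
  let q : τ → BF ⧸ m := fun a => Ideal.Quotient.mk m (X a)
  let t : Fin N → BF ⧸ m := fun i => algebraMap A (BF ⧸ m) (X i)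
  let ψ : B →+* BF ⧸ m := (Ideal.Quotient.mk m).comp (algebraMap B BF)
  have hψ0 : ∀ x ∈ J, ψ x = 0 := by
    intro x hx
    refine Ideal.Quotient.eq_zero_iff_mem.2 (hJm ?_)
    exact Ideal.mem_map_of_mem _ hx
  have hψX : ∀ a, ψ (X a) = q a := by
    intro a
    change Ideal.Quotient.mk m (algebraMap B BF (X a)) = _
    rw [hmap, map_X]
  have hψC : ∀ a : A, ψ (C a) = algebraMap A (BF ⧸ m) a := by
    intro a
    change Ideal.Quotient.mk m (algebraMap B BF (C a)) = _
    rw [hmap, map_C]
    rfl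
  have hta : ((aeval t : MvPolynomial (Fin N) K →ₐ[K] BF ⧸ m) :
      MvPolynomial (Fin N) K →+* BF ⧸ m) = algebraMap A (BF ⧸ m) := by
    refine MvPolynomial.ringHom_ext (fun c => ?_) fun i => ?_
    · change aeval t (C c) = algebraMap A (BF ⧸ m) (C c)
      rw [algHom_C]
      have h2 : (C c : A) = algebraMap K A c := rfl
      rw [h2, ← IsScalarTower.algebraMap_apply]
    · change aeval t (X i) = _
      rw [aeval_X]
  have hψe : ∀ p : B, ψ p = eval₂ ((aeval t : MvPolynomial (Fin N) K →ₐ[K] BF ⧸ m) :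
      MvPolynomial (Fin N) K →+* BF ⧸ m) q p := by
    intro p
    rw [hta]
    induction p using MvPolynomial.induction_on with
    | C c => rw [hψC, eval₂_C]
    | add p q hp hq => rw [map_add, eval₂_add, hp, hq]
    | mul_X p i hp => rw [map_mul, eval₂_mul, hp, hψX, eval₂_X]
  refine H (BF ⧸ m) t D (fun i l => ?_) q fun p hp => ?_
  · change D i (algebraMap A (BF ⧸ m) (X l)) = _
    rw [hD, pderiv_X]
    by_cases hil : i = l
    · subst hil
      rw [Pi.single_eq_same, if_pos rfl, map_one]
    · rw [Pi.single_eq_of_ne (Ne.symm hil), if_neg hil, map_zero]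
  · rw [← hψe]
    exact hψ0 p hp

/-- the exponents of degree `a` -/
def Ex (a : ℕ) : Finset (Fin 3 →₀ ℕ) := Finset.finsuppAntidiag Finset.univ a

theorem mem_Ex {a : ℕ} {s : Fin 3 →₀ ℕ} : s ∈ Ex a ↔ s.degree = a := by
  unfold Ex
  rw [Finset.mem_finsuppAntidiag, Finsupp.degree_eq_sum]
  constructor
  · rintro ⟨h, -⟩
    exact h
  · intro h
    exact ⟨h, Finset.subset_univ _⟩

/-- the form with given coefficients -/
noncomputable def fm {R : Type} [CommRing R] {a : ℕ} (q : Ex a → R) : MvPolynomial (Fin 3) R :=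
  ∑ s : Ex a, monomial (s : Fin 3 →₀ ℕ) (q s)

theorem fm_homog {R : Type} [CommRing R] {a : ℕ} (q : Ex a → R) : (fm q).IsHomogeneous a := by
  unfold fm
  refine IsHomogeneous.sum _ _ _ fun s _ => isHomogeneous_monomial _ ?_
  exact mem_Ex.1 s.2

theorem fm_coeff {R : Type} [CommRing R] {a : ℕ} {F : MvPolynomial (Fin 3) R}
    (hF : F.IsHomogeneous a) : fm (fun s : Ex a => coeff (s : Fin 3 →₀ ℕ) F) = F := by
  classical
  unfold fm
  ext r
  rw [coeff_sum]
  simp only [coeff_monomial]
  by_cases hr : r ∈ Ex a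
  · rw [Finset.sum_eq_single ⟨r, hr⟩]
    · simp
    · intro b _ hb
      rw [if_neg]
      intro h
      exact hb (Subtype.ext h)
    · intro h
      exact absurd (Finset.mem_univ _) h
  · have h0 : coeff r F = 0 := by
      by_contra hne
      apply hr
      rw [mem_Ex, Finsupp.degree_eq_weight_one]
      exact hF hne
    rw [h0]
    refine Finset.sum_eq_zero fun s _ => ?_
    rw [if_neg]
    rintro rfl
    exact hr s.2

theorem map_fm {R S : Type} [CommRing R] [CommRing S] {a : ℕ} (φ : R →+* S) (q : Ex a → R) :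
    MvPolynomial.map φ (fm q) = fm (fun s => φ (q s)) := by
  unfold fm
  rw [map_sum]
  exact Finset.sum_congr rfl fun s _ => by rw [map_monomial]

/-- no factorisation of the general member in degrees `a`, `a'` -/
theorem no_fact_general {K : Type} [Field K] [CharZero K] {n : ℕ} {w : Fin n → ℕ}
    {P : Fin n → Fin 2 → K} {c : ℕ} (h1 : Function.Surjective (ev w P (c + 2)))
    (h2 : Function.Surjective (ev (fun i => w i - 1) P c)) {N : ℕ}
    (b : Module.Basis (Fin N) K ↥(forms w P (c + 3))) (hN : 0 < N) {a a' : ℕ} (ha : 1 ≤ a)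
    (ha' : 1 ≤ a') (hab : a + a' = c + 3) :
    ∃ s : MvPolynomial (Fin N) K, s ≠ 0 ∧ ∀ t : Fin N → K, eval t s ≠ 0 →
      ∀ A B : MvPolynomial (Fin 3) K, A.IsHomogeneous a → B.IsHomogeneous a' →
        A * B ≠ ∑ j, t j • (b j : MvPolynomial (Fin 3) K) := by
  classical
  let R := MvPolynomial (Fin N) K
  let τ := Ex a ⊕ Ex a'
  let Au : MvPolynomial (Fin 3) (MvPolynomial τ R) := fm (fun s : Ex a => X (Sum.inl s))
  let Bu : MvPolynomial (Fin 3) (MvPolynomial τ R) := fm (fun s : Ex a' => X (Sum.inr s))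
  let Gu : MvPolynomial (Fin 3) (MvPolynomial τ R) :=
    ∑ j, (C (X j) : MvPolynomial τ R) • MvPolynomial.map (algebraMap K (MvPolynomial τ R))
      (b j : MvPolynomial (Fin 3) K)
  let J : Ideal (MvPolynomial τ R) := Ideal.span (Set.range fun r => coeff r (Au * Bu - Gu))
  have hkill : ∀ {L : Type} [Field L] (Ψ : MvPolynomial τ R →+* L),
      (∀ p ∈ J, Ψ p = 0) ↔ MvPolynomial.map Ψ Au * MvPolynomial.map Ψ Bu =
        MvPolynomial.map Ψ Gu := by
    intro L _ Ψ
    rw [← sub_eq_zero, ← map_mul, ← map_sub]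
    constructor
    · intro h
      ext r
      rw [coeff_map, coeff_zero]
      exact h _ (Ideal.subset_span ⟨r, rfl⟩)
    · intro h p hp
      have hker : J ≤ RingHom.ker Ψ := by
        rw [Ideal.span_le]
        rintro _ ⟨r, rfl⟩
        change Ψ (coeff r (Au * Bu - Gu)) = 0
        rw [← coeff_map, h, coeff_zero]
      exact hker hp
  obtain ⟨s, hs0, hs⟩ := elimD J (by
    intro L _ _ t D hD q hq
    obtain ⟨Ψ, hΨ⟩ : ∃ Ψ : MvPolynomial τ R →+* L, Ψ = eval₂Hom
      ((aeval t : MvPolynomial (Fin N) K →ₐ[K] L) : MvPolynomial (Fin N) K →+* L) q := ⟨_, rfl⟩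
    have h3 := (hkill Ψ).1 (fun p hp => by rw [hΨ]; exact hq p hp)
    have hΨX : ∀ x, Ψ (X x) = q x := fun x => by rw [hΨ]; exact eval₂_X _ _ _
    have hΨC : ∀ x, Ψ (C x) = aeval t x := fun x => by rw [hΨ]; exact eval₂_C _ _ _
    have eG : MvPolynomial.map Ψ Gu = ∑ j, t j • MvPolynomial.map (algebraMap K L)
        (b j : MvPolynomial (Fin 3) K) := by
      rw [map_sum]
      refine Finset.sum_congr rfl fun j _ => ?_
      have e3 : Ψ.comp (algebraMap K (MvPolynomial τ R)) = algebraMap K L := by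
        refine RingHom.ext fun x => ?_
        change Ψ (algebraMap K (MvPolynomial τ R) x) = algebraMap K L x
        have e1 : algebraMap K (MvPolynomial τ R) x = C (C x) := rfl
        rw [e1, hΨC, algHom_C]
      rw [MvPolynomial.smul_eq_C_mul, map_mul, map_C, hΨC, aeval_X, MvPolynomial.smul_eq_C_mul,
        MvPolynomial.map_map, e3]
    rw [eG, map_fm, map_fm] at h3
    -- the generic member is not zero
    have hG0 : (∑ j, t j • MvPolynomial.map (algebraMap K L) (b j : MvPolynomial (Fin 3) K)) ≠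
        0 := by
      intro h0
      obtain ⟨j0⟩ : Nonempty (Fin N) := ⟨⟨0, hN⟩⟩
      have hb : (b j0 : MvPolynomial (Fin 3) K) ≠ 0 := fun h => b.ne_zero j0 (Subtype.ext h)
      obtain ⟨r, hr⟩ := MvPolynomial.ne_zero_iff.1 hb
      have h4 := congrArg (coeff r) h0
      rw [coeff_sum, coeff_zero] at h4
      have h5 := congrArg (D j0) h4
      rw [map_sum, map_zero] at h5
      have e2 : ∀ i, D j0 (coeff r (t i • MvPolynomial.map (algebraMap K L)
          (b i : MvPolynomial (Fin 3) K))) =
          if j0 = i then algebraMap K L (coeff r (b i : MvPolynomial (Fin 3) K)) else 0 := by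
        intro i
        rw [coeff_smul, coeff_map, smul_eq_mul, Derivation.leibniz, Derivation.map_algebraMap,
          smul_zero, zero_add, hD, smul_eq_mul]
        split_ifs <;> simp
      rw [Finset.sum_congr rfl fun i _ => e2 i, Finset.sum_ite_eq] at h5
      simp only [Finset.mem_univ, if_true] at h5
      exact hr ((map_eq_zero (algebraMap K L)).1 h5)
    have hA0 := left_ne_zero_of_mul (h3 ▸ hG0)
    have hB0 := right_ne_zero_of_mul (h3 ▸ hG0)
    exact no_fact h1 h2 b t D hD (fm_homog _) (fm_homog _) ha ha' hab hA0 hB0 h3)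
  refine ⟨s, hs0, fun t ht A B hA hB hAB => ?_⟩
  let q : τ → K := Sum.elim (fun s => coeff (s : Fin 3 →₀ ℕ) A) (fun s => coeff (s : Fin 3 →₀ ℕ) B)
  obtain ⟨Ψ, hΨ⟩ : ∃ Ψ : MvPolynomial τ R →+* K, Ψ = eval₂Hom (eval t) q := ⟨_, rfl⟩
  have hΨX : ∀ x, Ψ (X x) = q x := fun x => by rw [hΨ]; exact eval₂_X _ _ _
  have hΨC : ∀ x, Ψ (C x) = eval t x := fun x => by rw [hΨ]; exact eval₂_C _ _ _
  have h3 : MvPolynomial.map Ψ Au * MvPolynomial.map Ψ Bu = MvPolynomial.map Ψ Gu := by
    have e1 : MvPolynomial.map Ψ Au = A := by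
      rw [map_fm]
      simp only [hΨX, q, Sum.elim_inl]
      exact fm_coeff hA
    have e2 : MvPolynomial.map Ψ Bu = B := by
      rw [map_fm]
      simp only [hΨX, q, Sum.elim_inr]
      exact fm_coeff hB
    rw [e1, e2, hAB, map_sum]
    refine Finset.sum_congr rfl fun j _ => ?_
    rw [MvPolynomial.smul_eq_C_mul, MvPolynomial.smul_eq_C_mul, map_mul, map_C, hΨC, eval_X,
      MvPolynomial.map_map]
    have e3 : Ψ.comp (algebraMap K (MvPolynomial τ R)) = RingHom.id K := by
      refine RingHom.ext fun x => ?_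
      change Ψ (algebraMap K (MvPolynomial τ R) x) = x
      have e1 : algebraMap K (MvPolynomial τ R) x = C (C x) := rfl
      rw [e1, hΨC, eval_C]
    rw [e3, MvPolynomial.map_id]
  have h4 := (hkill Ψ).2 h3 _ hs
  rw [hΨC] at h4
  exact ht h4

/-- **The general member is irreducible** if the conditions are independent in the degree below and
the adjoint system is nonspecial. -/
theorem general_irr {K : Type} [Field K] [CharZero K] {n : ℕ} {w : Fin n → ℕ}
    {P : Fin n → Fin 2 → K} {c : ℕ} (h1 : Function.Surjective (ev w P (c + 2)))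
    (h2 : Function.Surjective (ev (fun i => w i - 1) P c)) :
    GeneralMember (forms w P (c + 3)) Irreducible := by
  classical
  intro N b
  have hN : 0 < N := by
    have e0 := Module.finrank_eq_card_basis b
    have e1 : Module.finrank K ↥(forms w P (c + 2)) + ∑ i, (w i + 1).choose 2 =
      (c + 2 + 2).choose 2 := finrank_of_surj h1
    have e2 : Module.finrank K ↥(forms w P (c + 3)) + ∑ i, (w i + 1).choose 2 =
      (c + 3 + 2).choose 2 := finrank_of_surj (surj_succ h1)
    rw [Fintype.card_fin] at e0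
    have e3 : (c + 3 + 2).choose 2 = (c + 2 + 2).choose 2 + (c + 4) := by
      have := Nat.choose_succ_succ (c + 4) 1
      simp only [Nat.choose_one_right] at this
      rw [show c + 3 + 2 = (c + 4).succ by omega, this, show c + 2 + 2 = c + 4 by omega]
      exact Nat.add_comm _ _
    omega
  have hex : ∀ a : ℕ, ∃ s : MvPolynomial (Fin N) K, s ≠ 0 ∧ (1 ≤ a → a + 1 ≤ c + 3 →
      ∀ t : Fin N → K, eval t s ≠ 0 →
      ∀ A B : MvPolynomial (Fin 3) K, A.IsHomogeneous a → B.IsHomogeneous (c + 3 - a) →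
        A * B ≠ ∑ j, t j • (b j : MvPolynomial (Fin 3) K)) := by
    intro a
    by_cases ha : 1 ≤ a ∧ a + 1 ≤ c + 3
    · obtain ⟨s, hs, hs'⟩ := no_fact_general h1 h2 b hN (a := a) (a' := c + 3 - a) ha.1 (by omega)
        (by omega)
      exact ⟨s, hs, fun _ _ => hs'⟩
    · exact ⟨1, one_ne_zero, fun h h' => absurd ⟨h, h'⟩ ha⟩
  choose s hs0 hs using hex
  let j0 : Fin N := ⟨0, hN⟩
  refine ⟨X j0 * ∏ a ∈ Finset.range (c + 3), s a, mul_ne_zero (X_ne_zero _)
    (Finset.prod_ne_zero_iff.2 fun a _ => hs0 a), fun t ht => ?_⟩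
  rw [map_mul, map_prod, eval_X] at ht
  have ht0 := left_ne_zero_of_mul ht
  have ht1 := fun a ha => Finset.prod_ne_zero_iff.1 (right_ne_zero_of_mul ht) a ha
  obtain ⟨G, hG⟩ : ∃ G, G = ∑ j, t j • (b j : MvPolynomial (Fin 3) K) := ⟨_, rfl⟩
  have hG0 : G ≠ 0 := by
    intro h0
    rw [hG] at h0
    have hli0 : LinearIndependent K (fun j => (b j : MvPolynomial (Fin 3) K)) :=
      b.linearIndependent.map' (Submodule.subtype _) (Submodule.ker_subtype _)
    exact ht0 (Fintype.linearIndependent_iff.1 hli0 t h0 j0)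
  have hGh : G.IsHomogeneous (c + 3) := by
    rw [hG]
    have : ∑ j, t j • (b j : MvPolynomial (Fin 3) K) ∈ forms w P (c + 3) :=
      Submodule.sum_mem _ fun j _ => Submodule.smul_mem _ _ (b j).2
    exact (mem_forms.1 this).1
  rw [← hG]
  have hdeg : G.totalDegree = c + 3 := hGh.totalDegree hG0
  constructor
  · intro hu
    obtain ⟨x, -, hx⟩ := MvPolynomial.isUnit_iff_eq_C_of_isReduced.1 hu
    rw [hx, totalDegree_C] at hdeg
    omega
  · intro f g hfg
    have hf0 : f ≠ 0 := by
      rintro rfl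
      rw [zero_mul] at hfg
      exact hG0 hfg
    have hg0 : g ≠ 0 := by
      rintro rfl
      rw [mul_zero] at hfg
      exact hG0 hfg
    have hfh := Pool.Agent.Chud.homog_of_dvd hGh hG0 ⟨g, hfg⟩
    have hgh := Pool.Agent.Chud.homog_of_dvd hGh hG0 ⟨f, hfg.trans (mul_comm _ _)⟩
    have hsum : f.totalDegree + g.totalDegree = c + 3 := by
      rw [← totalDegree_mul_of_isDomain hf0 hg0, ← hfg, hdeg]
    have hunit : ∀ p : MvPolynomial (Fin 3) K, p ≠ 0 → p.totalDegree = 0 → IsUnit p := by
      intro p hp0 hp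
      rw [totalDegree_eq_zero_iff_eq_C] at hp
      rw [hp]
      refine IsUnit.map C (Ne.isUnit ?_)
      intro h0
      rw [h0, map_zero] at hp
      exact hp0 hp
    by_contra hcon
    push Not at hcon
    have hf1 : f.totalDegree ≠ 0 := fun h => hcon.1 (hunit f hf0 h)
    have hg1 : g.totalDegree ≠ 0 := fun h => hcon.2 (hunit g hg0 h)
    have hge : c + 3 - f.totalDegree = g.totalDegree := by omega
    refine hs f.totalDegree (by omega) (by omega) t (ht1 _ (Finset.mem_range.2 (by omega))) f g hfh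
      (by rw [hge]; exact hgh) ?_
    rw [← hfg, hG]

end Pool.Agent.U810.IR
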