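import Pool.Agent.U810.IR.Fact

set_option autoImplicit false

/-! Numerical connectedness from the adjoint system. -/

namespace Pool.Agent.U810.IR

open MvPolynomial Pool.Agent.H248R5 Pool.Agent.H248R6

variable {K : Type*} [Field K]

theorem adj_mul {n : ℕ} {u v : Fin n → ℕ} {P : Fin n → Fin 2 → K} {a b : ℕ}
    {A S : MvPolynomial (Fin 3) K} (hA : A ∈ forms u P a)
    (hS : S ∈ forms (fun i => v i - 1) P b) :
    A * S ∈ forms (fun i => u i + v i - 1) P (a + b) :=
  forms_anti (fun i => by omega) (mul_mem hA hS)

/-- **Second inequality**: numerical connectedness of the members, if the adjoint system is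
nonspecial. -/
theorem lower {n : ℕ} {u v : Fin n → ℕ} {P : Fin n → Fin 2 → K} {c a b : ℕ}
    {A B : MvPolynomial (Fin 3) K}
    (h : Function.Surjective (ev (fun i => u i + v i - 1) P c))
    (hd : a + b = c + 3) (ha : 1 ≤ a) (hb : 1 ≤ b) (hA : A ∈ forms u P a) (hB : B ∈ forms v P b)
    (hA0 : A ≠ 0) (hB0 : B ≠ 0) (hrel : IsRelPrime A B) :
    ∑ i, u i * v i + 1 ≤ a * b := by
  have d0 := finrank_of_surj h
  have f0 := forms_finite (fun i => u i + v i - 1) P c
  obtain ⟨M, hM⟩ : ∃ M, M = Module.finrank K ↥(forms (fun i => u i + v i - 1) P c) := ⟨_, rfl⟩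
  rw [← hM] at d0
  -- the lower bound for the dimension
  have key : ((a - 1).choose 2 : ℤ) - ∑ i, ((u i).choose 2 : ℤ) +
      (((b - 1).choose 2 : ℤ) - ∑ i, ((v i).choose 2 : ℤ)) ≤ M := by
    have hu : ∀ i, (u i - 1 + 1).choose 2 = (u i).choose 2 := by
      intro i
      rcases u i with _ | x
      · rfl
      · rfl
    have hv : ∀ i, (v i - 1 + 1).choose 2 = (v i).choose 2 := by
      intro i
      rcases v i with _ | x
      · rfl
      · rfl
    have pu : (0 : ℤ) ≤ ∑ i, ((u i).choose 2 : ℤ) := Finset.sum_nonneg fun i _ => by positivity
    have pv : (0 : ℤ) ≤ ∑ i, ((v i).choose 2 : ℤ) := Finset.sum_nonneg fun i _ => by positivity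
    have small : ∀ x : ℕ, x < 3 → (x - 1).choose 2 = 0 := by
      intro x hx
      interval_cases x <;> rfl
    rcases Nat.lt_or_ge a 3 with ha3 | ha3
    · rcases Nat.lt_or_ge b 3 with hb3 | hb3
      · rw [small a ha3, small b hb3, hM]
        push_cast
        linarith [pu, pv, (Nat.cast_nonneg (Module.finrank K
          ↥(forms (fun i => u i + v i - 1) P c)) : (0 : ℤ) ≤ _)]
      · obtain ⟨b', rfl⟩ := Nat.exists_eq_add_of_le hb3
        have hcb : a + b' = c := by omega
        have g1 := finrank_ge (fun i => v i - 1) P b'
        have g2 : Module.finrank K ↥(forms (fun i => v i - 1) P b') ≤ M := by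
          rw [hM]
          let ι : ↥(forms (fun i => v i - 1) P b') →ₗ[K]
              ↥(forms (fun i => u i + v i - 1) P c) :=
            ((LinearMap.mulLeft K A).comp (forms (fun i => v i - 1) P b').subtype).codRestrict _
              (fun S => by
                have := adj_mul hA S.2
                rw [hcb] at this
                exact this)
          refine LinearMap.finrank_le_finrank_of_injective (f := ι) ?_
          intro S S' hS
          have h1 : A * (S : MvPolynomial (Fin 3) K) = A * (S' : MvPolynomial (Fin 3) K) :=
            congrArg Subtype.val hS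
          exact Subtype.ext (mul_left_cancel₀ hA0 h1)
        simp only [hv] at g1
        rw [small a ha3]
        have e1 : 3 + b' - 1 = b' + 2 := by omega
        rw [e1]
        have g3 : ((b' + 2).choose 2 : ℤ) ≤ M + ∑ i, ((v i).choose 2 : ℤ) := by
          have := g1.trans (Nat.add_le_add_right g2 _)
          exact_mod_cast this
        push_cast
        linarith
    · obtain ⟨a', rfl⟩ := Nat.exists_eq_add_of_le ha3
      have e1 : 3 + a' - 1 = a' + 2 := by omega
      rw [e1]
      have g1 := finrank_ge (fun i => u i - 1) P a'
      simp only [hu] at g1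
      rcases Nat.lt_or_ge b 3 with hb3 | hb3
      · have hcb : b + a' = c := by omega
        have g2 : Module.finrank K ↥(forms (fun i => u i - 1) P a') ≤ M := by
          rw [hM]
          let ι : ↥(forms (fun i => u i - 1) P a') →ₗ[K]
              ↥(forms (fun i => u i + v i - 1) P c) :=
            ((LinearMap.mulLeft K B).comp (forms (fun i => u i - 1) P a').subtype).codRestrict _
              (fun S => by
                have h1 := adj_mul hB S.2
                rw [hcb] at h1
                exact forms_anti (fun i => by omega) h1)
          refine LinearMap.finrank_le_finrank_of_injective (f := ι) ?_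
          intro S S' hS
          have h1 : B * (S : MvPolynomial (Fin 3) K) = B * (S' : MvPolynomial (Fin 3) K) :=
            congrArg Subtype.val hS
          exact Subtype.ext (mul_left_cancel₀ hB0 h1)
        rw [small b hb3]
        have g3 : ((a' + 2).choose 2 : ℤ) ≤ M + ∑ i, ((u i).choose 2 : ℤ) := by
          have := g1.trans (Nat.add_le_add_right g2 _)
          exact_mod_cast this
        push_cast
        linarith
      · obtain ⟨b', rfl⟩ := Nat.exists_eq_add_of_le hb3
        have e2 : 3 + b' - 1 = b' + 2 := by omega
        rw [e2]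
        have g1' := finrank_ge (fun i => v i - 1) P b'
        simp only [hv] at g1'
        have f1 := forms_finite (fun i => u i - 1) P a'
        have f2 := forms_finite (fun i => v i - 1) P b'
        obtain ⟨φ, hφ⟩ : ∃ φ, φ = pencil (fun i => u i - 1) (fun i => v i - 1) P a' b' A B :=
          ⟨_, rfl⟩
        have hinj : Function.Injective φ := by
          rw [← LinearMap.ker_eq_bot, LinearMap.ker_eq_bot']
          rintro ⟨S, T⟩ hST
          rw [hφ, pencil_apply] at hST
          simp only at hST
          have hT : (T : MvPolynomial (Fin 3) K) = 0 := by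
            by_contra hT0
            have h1 : A ∣ B * (T : MvPolynomial (Fin 3) K) :=
              ⟨-(S : MvPolynomial (Fin 3) K), by linear_combination hST⟩
            obtain ⟨R, hR⟩ := hrel.dvd_of_dvd_mul_left h1
            have hR0 : R ≠ 0 := by
              rintro rfl
              rw [mul_zero] at hR
              exact hT0 hR
            have t1 : (T : MvPolynomial (Fin 3) K).totalDegree = a' :=
              (mem_forms.1 T.2).1.totalDegree hT0
            have t2 : A.totalDegree = 3 + a' := (mem_forms.1 hA).1.totalDegree hA0
            rw [hR, totalDegree_mul_of_isDomain hA0 hR0, t2] at t1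
            omega
          have hS : (S : MvPolynomial (Fin 3) K) = 0 := by
            rw [hT, mul_zero, add_zero] at hST
            exact (mul_eq_zero.1 hST).resolve_left hA0
          exact Prod.ext (Subtype.ext hS) (Subtype.ext hT)
        have r1 : Module.finrank K (↥(forms (fun i => v i - 1) P b') ×
            ↥(forms (fun i => u i - 1) P a')) ≤ M := by
          rw [hM]
          let ι : (↥(forms (fun i => v i - 1) P b') × ↥(forms (fun i => u i - 1) P a')) →ₗ[K]
              ↥(forms (fun i => u i + v i - 1) P c) :=
            φ.codRestrict _ (fun x => by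
              rw [hφ, pencil_apply]
              refine Submodule.add_mem _ ?_ ?_
              · have h1 := adj_mul hA x.1.2
                have h2 : 3 + a' + b' = c := by omega
                rw [h2] at h1
                exact h1
              · have h1 := adj_mul hB x.2.2
                have h2 : 3 + b' + a' = c := by omega
                rw [h2] at h1
                exact forms_anti (fun i => by omega) h1)
          refine LinearMap.finrank_le_finrank_of_injective (f := ι) ?_
          intro x y hxy
          exact hinj (congrArg Subtype.val hxy)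
        rw [Module.finrank_prod] at r1
        have g3 : ((a' + 2).choose 2 : ℤ) ≤ Module.finrank K ↥(forms (fun i => u i - 1) P a') +
            ∑ i, ((u i).choose 2 : ℤ) := by exact_mod_cast g1
        have g4 : ((b' + 2).choose 2 : ℤ) ≤ Module.finrank K ↥(forms (fun i => v i - 1) P b') +
            ∑ i, ((v i).choose 2 : ℤ) := by exact_mod_cast g1'
        have g5 : (Module.finrank K ↥(forms (fun i => v i - 1) P b') : ℤ) +
            Module.finrank K ↥(forms (fun i => u i - 1) P a') ≤ M := by exact_mod_cast r1
        linarith
  -- the arithmetic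
  have hw : ∀ i, ((u i + v i - 1) + 1).choose 2 = (u i + v i).choose 2 := by
    intro i
    rcases h0 : u i + v i with _ | x
    · rfl
    · rfl
  simp only [hw] at d0
  have hs : ∑ i, (2 * ((u i + v i).choose 2 : ℤ)) = ∑ i, 2 * ((u i).choose 2 : ℤ) +
      ∑ i, 2 * ((v i).choose 2 : ℤ) + 2 * ∑ i, (u i : ℤ) * v i := by
    rw [Finset.mul_sum, ← Finset.sum_add_distrib, ← Finset.sum_add_distrib]
    refine Finset.sum_congr rfl fun i _ => ?_
    rw [tri0 (u i), tri0 (v i), tri0 (u i + v i)]
    push_cast
    ring
  rw [← Finset.mul_sum, ← Finset.mul_sum, ← Finset.mul_sum] at hs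
  have t1 := tri c
  have t2 : 2 * ((a - 1).choose 2 : ℤ) = (a - 1) * (a - 2) := by
    rw [tri0, Nat.cast_sub ha]
    push_cast
    ring
  have t3 : 2 * ((b - 1).choose 2 : ℤ) = (b - 1) * (b - 2) := by
    rw [tri0, Nat.cast_sub hb]
    push_cast
    ring
  have hcZ : (c : ℤ) = a + b - 3 := by
    have : (a : ℤ) + b = c + 3 := by exact_mod_cast hd
    linarith
  rw [hcZ] at t1
  have d0' : (M : ℤ) + ∑ i, ((u i + v i).choose 2 : ℤ) = ((c + 2).choose 2 : ℤ) := by
    exact_mod_cast d0
  zify
  nlinarith

end Pool.Agent.U810.IR
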