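import Pool.Agent.H248R6.Dim
import Pool.Agent.H248R6.Main
import Pool.Agent.Chud.PD1

set_option autoImplicit false

/-! Decompositions of the members of a linear system: two opposite inequalities for the
intersection number. -/

namespace Pool.Agent.U810.IR

open MvPolynomial Pool.Agent.H248R5 Pool.Agent.H248R6

variable {K : Type*} [Field K]

theorem homog_finite (e : ℕ) : Module.Finite K ↥(homogeneousSubmodule (Fin 3) K e) :=
  Module.Finite.iff_fg.2 (homogeneousSubmodule_fg _ _ e)

/-- the expected dimension is a lower bound -/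
theorem finrank_ge {n : ℕ} (w : Fin n → ℕ) (P : Fin n → Fin 2 → K) (e : ℕ) :
    (e + 2).choose 2 ≤ Module.finrank K ↥(forms w P e) + ∑ i, (w i + 1).choose 2 := by
  have hfin : Module.Finite K ↥(homogeneousSubmodule (Fin 3) K e) := homog_finite e
  have hq : ∀ i, Module.Finite K (Quo K (w i)) := fun i => quo_finite (w i)
  have h1 := LinearMap.finrank_range_add_finrank_ker (ev w P e)
  have h2 : Module.finrank K ↥(forms w P e) = Module.finrank K ↥(LinearMap.ker (ev w P e)) := by
    rw [forms_eq_map]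
    exact LinearEquiv.finrank_eq (Submodule.equivSubtypeMap _ _).symm
  have h3 : Module.finrank K (∀ i, Quo K (w i)) = ∑ i, (w i + 1).choose 2 := by
    rw [Module.finrank_pi_fintype]
    exact Finset.sum_congr rfl fun i _ => finrank_quo (w i)
  have h4 := Submodule.finrank_le (LinearMap.range (ev w P e))
  rw [h3] at h4
  rw [finrank_homog] at h1
  omega

theorem surj_succ {n : ℕ} {w : Fin n → ℕ} {P : Fin n → Fin 2 → K} {e : ℕ}
    (h : Function.Surjective (ev w P e)) : Function.Surjective (ev w P (e + 1)) := by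
  intro y
  obtain ⟨G, hG⟩ := h y
  refine ⟨⟨(G : MvPolynomial (Fin 3) K) * X 2, ?_⟩, funext fun i => ?_⟩
  · exact ((mem_homogeneousSubmodule _ _).1 G.2).mul (isHomogeneous_X K 2)
  · rw [ev_apply]
    simp only [map_mul, tau_X2, mul_one]
    rw [← hG, ev_apply]

theorem surj_le {n : ℕ} {w : Fin n → ℕ} {P : Fin n → Fin 2 → K} {e e' : ℕ}
    (h : Function.Surjective (ev w P e)) (he : e ≤ e') : Function.Surjective (ev w P e') := by
  obtain ⟨k, rfl⟩ := Nat.exists_eq_add_of_le he
  clear he
  induction k with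
  | zero => exact h
  | succ k ih => exact surj_succ ih

/-- members with prescribed restriction to the line `X 2 = 0` -/
theorem lift {n : ℕ} {w : Fin n → ℕ} {P : Fin n → Fin 2 → K} {e : ℕ}
    (h : Function.Surjective (ev w P e)) {f : MvPolynomial (Fin 3) K}
    (hf : f.IsHomogeneous (e + 1)) :
    ∃ H : MvPolynomial (Fin 3) K, H.IsHomogeneous e ∧ f - X 2 * H ∈ forms w P (e + 1) := by
  obtain ⟨H, hH⟩ := h (fun i => Ideal.Quotient.mk _ (tau (P i) f))
  have hHh : (H : MvPolynomial (Fin 3) K).IsHomogeneous e := (mem_homogeneousSubmodule _ _).1 H.2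
  refine ⟨H, hHh, mem_forms.2 ⟨?_, fun i => ?_⟩⟩
  · refine hf.sub ?_
    have := (isHomogeneous_X K (2 : Fin 3)).mul hHh
    rwa [add_comm] at this
  · have h2 := congrFun hH i
    rw [ev_apply] at h2
    have h3 := Ideal.Quotient.eq.1 h2.symm
    rw [map_sub, map_mul, tau_X2, one_mul]
    exact h3

/-- forms of positive degree -/
theorem split_X {t : ℕ} {F : MvPolynomial (Fin 3) K} (hF : F.IsHomogeneous (t + 1)) :
    ∃ f : Fin 3 → MvPolynomial (Fin 3) K, (∀ j, (f j).IsHomogeneous t) ∧ F = ∑ j, X j * f j := by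
  classical
  have key : ∀ S : Finset (Fin 3 →₀ ℕ), (∀ s ∈ S, s.degree = t + 1) →
      ∃ f : Fin 3 → MvPolynomial (Fin 3) K, (∀ j, (f j).IsHomogeneous t) ∧
        ∑ s ∈ S, monomial s (coeff s F) = ∑ j, X j * f j := by
    intro S
    induction S using Finset.induction_on with
    | empty =>
      intro _
      exact ⟨fun _ => 0, fun _ => isHomogeneous_zero _ _ _, by simp⟩
    | insert s S hs ih =>
      intro h
      obtain ⟨f, hf, hf'⟩ := ih fun s' hs' => h s' (Finset.mem_insert_of_mem hs')
      have hdeg := h s (Finset.mem_insert_self _ _)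
      obtain ⟨j, hj⟩ : ∃ j, s j ≠ 0 := by
        by_contra hcon
        push Not at hcon
        have : s = 0 := Finsupp.ext hcon
        rw [this] at hdeg
        simp at hdeg
      have hle : Finsupp.single j 1 ≤ s := by
        rw [Finsupp.single_le_iff]
        omega
      refine ⟨fun i => if i = j then f i + monomial (s - Finsupp.single j 1) (coeff s F) else f i,
        fun i => ?_, ?_⟩
      · by_cases hi : i = j
        · simp only [if_pos hi]
          refine (hf i).add (isHomogeneous_monomial _ ?_)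
          have h1 : (s - Finsupp.single j 1 + Finsupp.single j 1).degree = s.degree := by
            rw [tsub_add_cancel_of_le hle]
          rw [map_add, Finsupp.degree_single] at h1
          omega
        · simp only [if_neg hi]
          exact hf i
      · rw [Finset.sum_insert hs, hf']
        have h1 : ∀ i, X i * (if i = j then f i + monomial (s - Finsupp.single j 1) (coeff s F)
            else f i) = X i * f i + if i = j then X i * monomial (s - Finsupp.single j 1) (coeff s F)
              else 0 := by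
          intro i
          split_ifs
          · rw [mul_add]
          · rw [add_zero]
        rw [Finset.sum_congr rfl fun i _ => h1 i, Finset.sum_add_distrib, Finset.sum_ite_eq']
        simp only [Finset.mem_univ, if_true]
        have h2 : (X j : MvPolynomial (Fin 3) K) * monomial (s - Finsupp.single j 1) (coeff s F) =
            monomial s (coeff s F) := by
          rw [X, monomial_mul, one_mul, add_tsub_cancel_of_le hle]
        rw [h2, add_comm]
  obtain ⟨f, hf, hf'⟩ := key F.support (fun s hs => by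
    have := hF (mem_support_iff.1 hs)
    rw [Finsupp.degree_eq_weight_one]
    exact this)
  exact ⟨f, hf, F.as_sum.trans hf'⟩

/-- generation in the next degree -/
theorem gen_step {n : ℕ} {w : Fin n → ℕ} {P : Fin n → Fin 2 → K} {e : ℕ}
    (h : Function.Surjective (ev w P e)) {F : MvPolynomial (Fin 3) K}
    (hF : F ∈ forms w P (e + 2)) :
    ∃ f : Fin 3 → MvPolynomial (Fin 3) K, (∀ j, f j ∈ forms w P (e + 1)) ∧
      F = ∑ j, X j * f j := by
  obtain ⟨hF1, hF2⟩ := mem_forms.1 hF
  obtain ⟨f, hf, hf'⟩ := split_X (t := e + 1) hF1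
  obtain ⟨H0, hH0, h0⟩ := lift h (hf 0)
  obtain ⟨H1, hH1, h1⟩ := lift h (hf 1)
  obtain ⟨g, hg⟩ : ∃ g, g = f 2 + X 0 * H0 + X 1 * H1 := ⟨_, rfl⟩
  have hgh : g.IsHomogeneous (e + 1) := by
    rw [hg]
    refine ((hf 2).add ?_).add ?_
    · have := (isHomogeneous_X K (0 : Fin 3)).mul hH0
      rwa [add_comm] at this
    · have := (isHomogeneous_X K (1 : Fin 3)).mul hH1
      rwa [add_comm] at this
  have hFe : F = X 0 * (f 0 - X 2 * H0) + X 1 * (f 1 - X 2 * H1) + X 2 * g := by
    rw [hf', Fin.sum_univ_three, hg]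
    ring
  have hgm : g ∈ forms w P (e + 1) := by
    refine mem_forms.2 ⟨hgh, fun i => ?_⟩
    have e1 : tau (P i) g = tau (P i) F - tau (P i) (X 0) * tau (P i) (f 0 - X 2 * H0) -
        tau (P i) (X 1) * tau (P i) (f 1 - X 2 * H1) := by
      rw [hFe, map_add, map_add, map_mul, map_mul, map_mul, tau_X2]
      ring
    rw [e1]
    refine Submodule.sub_mem _ (Submodule.sub_mem _ (hF2 i) ?_) ?_
    · exact Ideal.mul_mem_left _ _ ((mem_forms.1 h0).2 i)
    · exact Ideal.mul_mem_left _ _ ((mem_forms.1 h1).2 i)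
  refine ⟨![f 0 - X 2 * H0, f 1 - X 2 * H1, g], fun j => ?_, ?_⟩
  · fin_cases j
    · exact h0
    · exact h1
    · exact hgm
  · rw [Fin.sum_univ_three]
    exact hFe

theorem mul_mem {n : ℕ} {u v : Fin n → ℕ} {P : Fin n → Fin 2 → K} {a b : ℕ}
    {A B : MvPolynomial (Fin 3) K} (hA : A ∈ forms u P a) (hB : B ∈ forms v P b) :
    A * B ∈ forms (fun i => u i + v i) P (a + b) := by
  obtain ⟨h1, h2⟩ := mem_forms.1 hA
  obtain ⟨h3, h4⟩ := mem_forms.1 hB
  refine mem_forms.2 ⟨h1.mul h3, fun i => ?_⟩
  rw [map_mul, pow_add]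
  exact Ideal.mul_mem_mul (h2 i) (h4 i)

theorem mul_homog {n : ℕ} {v : Fin n → ℕ} {P : Fin n → Fin 2 → K} {b k : ℕ}
    {B Q : MvPolynomial (Fin 3) K} (hB : B ∈ forms v P b) (hQ : Q.IsHomogeneous k) :
    B * Q ∈ forms v P (b + k) := by
  obtain ⟨h3, h4⟩ := mem_forms.1 hB
  refine mem_forms.2 ⟨h3.mul hQ, fun i => ?_⟩
  rw [map_mul]
  exact Ideal.mul_mem_right _ _ (h4 i)

theorem forms_anti {n : ℕ} {u v : Fin n → ℕ} {P : Fin n → Fin 2 → K} {b : ℕ}
    (h : ∀ i, u i ≤ v i) {B : MvPolynomial (Fin 3) K} (hB : B ∈ forms v P b) :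
    B ∈ forms u P b := by
  obtain ⟨h3, h4⟩ := mem_forms.1 hB
  exact mem_forms.2 ⟨h3, fun i => Ideal.pow_le_pow_right (h i) (h4 i)⟩

/-- all members of high degree lie in the ideal of the two factors -/
theorem chain {n : ℕ} {w u v : Fin n → ℕ} {P : Fin n → Fin 2 → K} {e a b : ℕ}
    {A B : MvPolynomial (Fin 3) K} (h : Function.Surjective (ev w P e)) (hd : a + b = e + 1)
    (h0 : ∀ F ∈ forms w P (a + b), ∃ S ∈ forms v P b, ∃ T ∈ forms u P a, F = A * S + B * T)
    (k : ℕ) : ∀ F ∈ forms w P (a + b + k), ∃ S ∈ forms v P (b + k), ∃ T ∈ forms u P (a + k),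
      F = A * S + B * T := by
  induction k with
  | zero => exact h0
  | succ k ih =>
    intro F hF
    have e1 : a + b + (k + 1) = e + k + 2 := by omega
    rw [e1] at hF
    obtain ⟨f, hf, hf'⟩ := gen_step (surj_le h (Nat.le_add_right e k)) hF
    have e2 : e + k + 1 = a + b + k := by omega
    rw [e2] at hf
    choose S hS T hT hST using fun j => ih (f j) (hf j)
    refine ⟨∑ j, S j * X j, ?_, ∑ j, T j * X j, ?_, ?_⟩
    · exact Submodule.sum_mem _ fun j _ => mul_homog (b := b + k) (k := 1) (hS j)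
        (isHomogeneous_X K j)
    · exact Submodule.sum_mem _ fun j _ => mul_homog (b := a + k) (k := 1) (hT j)
        (isHomogeneous_X K j)
    · rw [hf', Finset.mul_sum, Finset.mul_sum, ← Finset.sum_add_distrib]
      refine Finset.sum_congr rfl fun j _ => ?_
      rw [hST j]
      ring

theorem tri (x : ℕ) : 2 * ((x + 2).choose 2 : ℤ) = (x + 2) * (x + 1) := by
  have h : (x + 2).choose 2 * 2 = (x + 2) * (x + 1) := by
    rw [Nat.choose_two_right]
    exact Nat.div_mul_cancel (Nat.even_mul_pred_self (x + 2)).two_dvd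
  have h2 : (((x + 2).choose 2 * 2 : ℕ) : ℤ) = (((x + 2) * (x + 1) : ℕ) : ℤ) := by rw [h]
  push_cast at h2
  linarith

theorem tri1 (x : ℕ) : 2 * ((x + 1).choose 2 : ℤ) = (x + 1) * x := by
  rcases x with _ | x
  · simp
  · rw [tri]
    push_cast
    ring

theorem tri0 (x : ℕ) : 2 * (x.choose 2 : ℤ) = x * (x - 1) := by
  rcases x with _ | x
  · simp
  · rw [tri1]
    push_cast
    ring

/-- the pencil of the two factors -/
noncomputable def pencil {n : ℕ} (u v : Fin n → ℕ) (P : Fin n → Fin 2 → K) (a b : ℕ)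
    (A B : MvPolynomial (Fin 3) K) :
    (↥(forms v P b) × ↥(forms u P a)) →ₗ[K] MvPolynomial (Fin 3) K :=
  LinearMap.coprod ((LinearMap.mulLeft K A).comp (forms v P b).subtype)
    ((LinearMap.mulLeft K B).comp (forms u P a).subtype)

theorem pencil_apply {n : ℕ} (u v : Fin n → ℕ) (P : Fin n → Fin 2 → K) (a b : ℕ)
    (A B : MvPolynomial (Fin 3) K) (x : ↥(forms v P b) × ↥(forms u P a)) :
    pencil u v P a b A B x = A * (x.1 : MvPolynomial (Fin 3) K) + B * (x.2 : MvPolynomial (Fin 3) K) :=
  rfl

/-- **First inequality**: if all members lie in the ideal of the two factors, then the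
intersection number is not positive. -/
theorem upper {n : ℕ} {u v : Fin n → ℕ} {P : Fin n → Fin 2 → K} {e a b : ℕ}
    {A B : MvPolynomial (Fin 3) K} (h : Function.Surjective (ev (fun i => u i + v i) P e))
    (hd : a + b = e + 1) (hA : A ∈ forms u P a) (hB : B ∈ forms v P b) (hB0 : B ≠ 0)
    (h0 : ∀ F ∈ forms (fun i => u i + v i) P (a + b),
      ∃ S ∈ forms v P b, ∃ T ∈ forms u P a, F = A * S + B * T) :
    a * b ≤ ∑ i, u i * v i := by
  have hc := chain h hd h0 e
  have s1 : Function.Surjective (ev v P (b + e)) :=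
    surj_mono (fun i => Nat.le_add_left _ _) (surj_le h (Nat.le_add_left _ _))
  have s2 : Function.Surjective (ev u P (a + e)) :=
    surj_mono (fun i => Nat.le_add_right _ _) (surj_le h (Nat.le_add_left _ _))
  have s3 : Function.Surjective (ev (fun i => u i + v i) P (a + b + e)) :=
    surj_le h (Nat.le_add_left _ _)
  have d1 := finrank_of_surj s1
  have d2 := finrank_of_surj s2
  have d3 := finrank_of_surj s3
  have f1 := forms_finite v P (b + e)
  have f2 := forms_finite u P (a + e)
  have f3 := forms_finite (fun i => u i + v i) P (a + b + e)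
  obtain ⟨φ, hφ⟩ : ∃ φ, φ = pencil u v P (a + e) (b + e) A B := ⟨_, rfl⟩
  have hle : forms (fun i => u i + v i) P (a + b + e) ≤ LinearMap.range φ := by
    intro F hF
    obtain ⟨S, hS, T, hT, hST⟩ := hc F hF
    refine ⟨(⟨S, hS⟩, ⟨T, hT⟩), ?_⟩
    rw [hφ, pencil_apply]
    exact hST.symm
  have r1 := LinearMap.finrank_range_add_finrank_ker φ
  rw [Module.finrank_prod] at r1
  have r2 : Module.finrank K ↥(forms (fun i => u i + v i) P (a + b + e)) ≤
      Module.finrank K ↥(LinearMap.range φ) := Submodule.finrank_mono hle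
  have r3 : (e + 2).choose 2 ≤ Module.finrank K ↥(LinearMap.ker φ) := by
    rw [← finrank_homog (K := K) e]
    let ι : ↥(homogeneousSubmodule (Fin 3) K e) →ₗ[K] ↥(LinearMap.ker φ) :=
      { toFun := fun Q => ⟨(⟨B * Q, mul_homog hB ((mem_homogeneousSubmodule _ _).1 Q.2)⟩,
          ⟨-(A * Q), Submodule.neg_mem _ (mul_homog hA ((mem_homogeneousSubmodule _ _).1 Q.2))⟩),
          by
            rw [LinearMap.mem_ker, hφ, pencil_apply]
            simp only
            ring⟩
        map_add' := by
          intro Q Q'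
          ext1
          refine Prod.ext (Subtype.ext ?_) (Subtype.ext ?_)
          · simp [mul_add]
          · simp only [Submodule.coe_add, mul_add, neg_add, Prod.snd_add]
        map_smul' := by
          intro c Q
          ext1
          refine Prod.ext (Subtype.ext ?_) (Subtype.ext ?_)
          · simp
          · simp }
    refine LinearMap.finrank_le_finrank_of_injective (f := ι) ?_
    intro Q Q' hQ
    have h1 : B * (Q : MvPolynomial (Fin 3) K) = B * (Q' : MvPolynomial (Fin 3) K) :=
      congrArg (fun x : ↥(LinearMap.ker φ) => ((x : ↥(forms v P (b + e)) × ↥(forms u P (a + e))).1 :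
        MvPolynomial (Fin 3) K)) hQ
    exact Subtype.ext (mul_left_cancel₀ hB0 h1)
  zify at *
  have t1 := tri (b + e)
  have t2 := tri (a + e)
  have t3 := tri (a + b + e)
  have t4 := tri e
  push_cast at *
  have hs : ∑ i, (2 * ((u i + v i + 1).choose 2 : ℤ)) = ∑ i, 2 * ((u i + 1).choose 2 : ℤ) +
      ∑ i, 2 * ((v i + 1).choose 2 : ℤ) + 2 * ∑ i, (u i : ℤ) * v i := by
    rw [Finset.mul_sum, ← Finset.sum_add_distrib, ← Finset.sum_add_distrib]
    refine Finset.sum_congr rfl fun i _ => ?_
    rw [tri1 (u i), tri1 (v i), tri1 (u i + v i)]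
    push_cast
    ring
  rw [← Finset.mul_sum, ← Finset.mul_sum, ← Finset.mul_sum] at hs
  nlinarith

end Pool.Agent.U810.IR
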