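import Pool.Agent.U810.IR.Conn

set_option autoImplicit false

/-! The generic member is irreducible. -/

namespace Pool.Agent.U810.IR

open MvPolynomial Pool.Agent.H248R5 Pool.Agent.H248R6

/-- base change of the independence of the conditions -/
theorem surj_base {K L : Type*} [Field K] [Field L] [Algebra K L] {n : ℕ} {w : Fin n → ℕ}
    {P : Fin n → Fin 2 → K} {e : ℕ} (h : Function.Surjective (ev w P e)) :
    Function.Surjective (ev w (fun i a => algebraMap K L (P i a)) e) := by
  classical
  rw [← LinearMap.range_eq_top, eq_top_iff]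
  intro y _
  have hy : y = ∑ i, Pi.single i (y i) := (Finset.univ_sum_single y).symm
  rw [hy]
  refine Submodule.sum_mem _ fun i _ => ?_
  obtain ⟨f, hf⟩ := Ideal.Quotient.mk_surjective (y i)
  rw [← hf]
  have hmono : ∀ s : Fin 2 →₀ ℕ, (Pi.single i (Ideal.Quotient.mk ((idealOfVars (Fin 2) L) ^ (w i))
      (monomial s (1 : L))) : ∀ i, Quo L (w i)) ∈
        LinearMap.range (ev w (fun i a => algebraMap K L (P i a)) e) := by
    intro s
    obtain ⟨G, hG⟩ := h (Pi.single i (Ideal.Quotient.mk ((idealOfVars (Fin 2) K) ^ (w i))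
      (monomial s (1 : K))))
    have hGh : (G : MvPolynomial (Fin 3) K).IsHomogeneous e := (mem_homogeneousSubmodule _ _).1 G.2
    refine ⟨⟨MvPolynomial.map (algebraMap K L) (G : MvPolynomial (Fin 3) K), hGh.map _⟩,
      funext fun j => ?_⟩
    rw [ev_apply]
    simp only
    rw [tau_map]
    have h2 := congrFun hG j
    rw [ev_apply] at h2
    by_cases hj : j = i
    · subst hj
      rw [Pi.single_eq_same] at h2 ⊢
      rw [Ideal.Quotient.eq, mem_pow_idealOfVars_iff'] at h2 ⊢
      intro x hx
      have h3 := h2 x hx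
      rw [coeff_sub, coeff_monomial] at h3 ⊢
      rw [coeff_map, sub_eq_zero.1 h3]
      split_ifs <;> simp
    · rw [Pi.single_eq_of_ne hj] at h2 ⊢
      rw [Ideal.Quotient.eq_zero_iff_mem, mem_pow_idealOfVars_iff'] at h2 ⊢
      intro x hx
      rw [coeff_map, h2 x hx, map_zero]
  have e1 : (Pi.single i (Ideal.Quotient.mk ((idealOfVars (Fin 2) L) ^ (w i)) f) :
      ∀ i, Quo L (w i)) = ∑ s ∈ f.support, coeff s f •
        (Pi.single i (Ideal.Quotient.mk ((idealOfVars (Fin 2) L) ^ (w i)) (monomial s (1 : L))) :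
          ∀ i, Quo L (w i)) := by
    have e2 : Ideal.Quotient.mk ((idealOfVars (Fin 2) L) ^ (w i)) f = ∑ s ∈ f.support,
        coeff s f • Ideal.Quotient.mk ((idealOfVars (Fin 2) L) ^ (w i)) (monomial s (1 : L)) := by
      conv_lhs => rw [f.as_sum, map_sum]
      refine Finset.sum_congr rfl fun s _ => ?_
      have h1 : (monomial s (coeff s f) : MvPolynomial (Fin 2) L) =
          coeff s f • monomial s (1 : L) := by
        rw [smul_monomial, smul_eq_mul, mul_one]
      rw [h1]
      rfl
    rw [e2]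
    funext j
    rw [Finset.sum_apply]
    by_cases hj : j = i
    · subst hj
      rw [Pi.single_eq_same]
      refine Finset.sum_congr rfl fun s _ => ?_
      rw [Pi.smul_apply, Pi.single_eq_same]
    · rw [Pi.single_eq_of_ne hj]
      symm
      refine Finset.sum_eq_zero fun s _ => ?_
      rw [Pi.smul_apply, Pi.single_eq_of_ne hj, smul_zero]
  rw [e1]
  exact Submodule.sum_mem _ fun s _ => Submodule.smul_mem _ _ (hmono s)

/-- splitting the multiplicity of a product -/
theorem split_ord {L : Type*} [Field L] {w : ℕ} {f g : MvPolynomial (Fin 2) L}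
    (h : f * g ∈ (idealOfVars (Fin 2) L) ^ w) :
    ∃ u v, u + v = w ∧ f ∈ (idealOfVars (Fin 2) L) ^ u ∧ g ∈ (idealOfVars (Fin 2) L) ^ v := by
  have key : ∀ (f : MvPolynomial (Fin 2) L) (k : ℕ), f ∈ (idealOfVars (Fin 2) L) ^ k ↔
      (k : ℕ∞) ≤ (f : MvPowerSeries (Fin 2) L).order := by
    intro f k
    rw [mem_pow_idealOfVars_iff']
    constructor
    · intro h
      apply MvPowerSeries.nat_le_order
      intro d hd
      rw [MvPolynomial.coeff_coe]
      exact h d hd
    · intro h b hb
      have h1 := MvPowerSeries.coeff_of_lt_order (f := (f : MvPowerSeries (Fin 2) L)) (d := b)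
        (lt_of_lt_of_le (by exact_mod_cast hb) h)
      rw [MvPolynomial.coeff_coe] at h1
      exact h1
  rw [key, MvPolynomial.coe_mul, MvPowerSeries.order_mul] at h
  by_cases hα : (f : MvPowerSeries (Fin 2) L).order = ⊤
  · refine ⟨w, 0, by omega, (key _ _).2 (by rw [hα]; exact le_top), ?_⟩
    rw [pow_zero, Ideal.one_eq_top]
    exact Submodule.mem_top
  · obtain ⟨x, hα⟩ := ENat.ne_top_iff_exists.1 hα
    rcases le_or_gt w x with hx | hx
    · refine ⟨w, 0, by omega, (key _ _).2 (by rw [← hα]; exact_mod_cast hx), ?_⟩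
      rw [pow_zero, Ideal.one_eq_top]
      exact Submodule.mem_top
    · refine ⟨x, w - x, by omega, (key _ _).2 (by rw [← hα]), (key _ _).2 ?_⟩
      rw [← hα] at h
      have h1 : ((x + (w - x) : ℕ) : ℕ∞) ≤ (x : ℕ∞) + (g : MvPowerSeries (Fin 2) L).order := by
        rw [show x + (w - x) = w by omega]
        exact h
      push_cast at h1
      exact (ENat.add_le_add_iff_left (by simp)).1 h1

/-- a common divisor of all members is a unit -/
theorem unit_of_dvd {L : Type*} [Field L] {n : ℕ} {w : Fin n → ℕ} {P : Fin n → Fin 2 → L} {e a : ℕ}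
    (h : Function.Surjective (ev w P e)) {g A : MvPolynomial (Fin 3) L} (hA : A.IsHomogeneous a)
    (hA0 : A ≠ 0) (hgA : g ∣ A) (hg : ∀ F ∈ forms w P (e + 1), g ∣ F) : IsUnit g := by
  have hgh := Pool.Agent.Chud.homog_of_dvd hA hA0 hgA
  have hg0 : g ≠ 0 := by
    rintro rfl
    exact hA0 (zero_dvd_iff.1 hgA)
  let π : MvPolynomial (Fin 3) L →ₐ[L] MvPolynomial (Fin 2) L := aeval ![X 0, X 1, 0]
  have hπ2 : π (X 2) = 0 := by simp [π]
  have hπ0 : π (X 0) = X 0 := by simp [π]
  have hπ1 : π (X 1) = X 1 := by simp [π]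
  have hpow : ∀ j : Fin 3, π g ∣ π (X j) ^ (e + 1) := by
    intro j
    have hX : (X j ^ (e + 1) : MvPolynomial (Fin 3) L).IsHomogeneous (e + 1) := by
      have := (isHomogeneous_X L j).pow (e + 1)
      rwa [one_mul] at this
    obtain ⟨H, -, hH⟩ := lift h hX
    obtain ⟨Q, hQ⟩ := hg _ hH
    refine ⟨π Q, ?_⟩
    rw [← map_mul, ← hQ, map_sub, map_mul, hπ2, zero_mul, sub_zero, map_pow]
  have hrel : IsRelPrime (X 0 : MvPolynomial (Fin 2) L) (X 1) := by
    rw [(X_prime (R := L) (i := (0 : Fin 2))).irreducible.isRelPrime_iff_not_dvd, X_dvd_X]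
    exact Fin.zero_ne_one
  have hu : IsUnit (π g) := by
    have h0 := hpow 0
    have h1 := hpow 1
    rw [hπ0] at h0
    rw [hπ1] at h1
    exact (IsRelPrime.pow hrel) h0 h1
  obtain ⟨c, hc, hgc⟩ := MvPolynomial.isUnit_iff_eq_C_of_isReduced.1 hu
  have hπh : (π g).IsHomogeneous g.totalDegree := by
    have h3 : ∀ i, ((![X 0, X 1, 0] : Fin 3 → MvPolynomial (Fin 2) L) i).IsHomogeneous 1 := by
      intro i
      fin_cases i
      · exact isHomogeneous_X L _
      · exact isHomogeneous_X L _
      · exact isHomogeneous_zero _ _ _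
    have := hgh.aeval _ h3
    rw [one_mul] at this
    exact this
  have hdeg : g.totalDegree = 0 := by
    rw [hgc] at hπh
    exact (hπh.inj_right (isHomogeneous_C _ c) (by
      rw [Ne, C_eq_zero]
      exact hc.ne_zero))
  rw [totalDegree_eq_zero_iff_eq_C] at hdeg
  rw [hdeg]
  refine IsUnit.map C (Ne.isUnit ?_)
  intro h0
  rw [h0, map_zero] at hdeg
  exact hg0 hdeg

/-- the derivative of a factor -/
theorem dG_forms {K L : Type} [Field K] [CharZero K] [Field L] [Algebra K L] [CharZero L] {n : ℕ}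
    {u : Fin n → ℕ} {P : Fin n → Fin 2 → K} {a : ℕ} {A : MvPolynomial (Fin 3) L}
    (D : Derivation ℚ L L) (hD : ∀ x : K, D (algebraMap K L x) = 0)
    (hA : A ∈ forms u (fun i a => algebraMap K L (P i a)) a) :
    dG D A ∈ forms u (fun i a => algebraMap K L (P i a)) a := by
  obtain ⟨h1, h2⟩ := mem_forms.1 hA
  refine mem_forms.2 ⟨dG_homog D h1, fun i => ?_⟩
  rw [tau_dG]
  have e1 : ∑ b, C (D (algebraMap K L (P i b))) *
      pderiv b (tau (fun a => algebraMap K L (P i a)) A) = 0 := by
    refine Finset.sum_eq_zero fun b _ => ?_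
    rw [hD, map_zero, zero_mul]
  rw [e1, sub_zero, mem_pow_idealOfVars_iff']
  intro s hs
  rw [coeff_dG, (mem_pow_idealOfVars_iff' _ _).1 (h2 i) s hs, map_zero]

/-- **The generic member is irreducible.** -/
theorem no_fact {K : Type} [Field K] [CharZero K] {n : ℕ} {w : Fin n → ℕ} {P : Fin n → Fin 2 → K}
    {c : ℕ} (h1 : Function.Surjective (ev w P (c + 2)))
    (h2 : Function.Surjective (ev (fun i => w i - 1) P c)) {N : ℕ}
    (b : Module.Basis (Fin N) K ↥(forms w P (c + 3))) {L : Type} [Field L] [Algebra K L]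
    (t : Fin N → L) (D : Fin N → Derivation K L L)
    (hD : ∀ i j, D i (t j) = if i = j then 1 else 0) {A B : MvPolynomial (Fin 3) L} {a a' : ℕ}
    (hA : A.IsHomogeneous a) (hB : B.IsHomogeneous a') (ha : 1 ≤ a) (ha' : 1 ≤ a')
    (hab : a + a' = c + 3) (hA0 : A ≠ 0) (hB0 : B ≠ 0)
    (hG : A * B = ∑ j, t j • MvPolynomial.map (algebraMap K L) (b j : MvPolynomial (Fin 3) K)) :
    False := by
  classical
  have hchar : CharZero L := charZero_of_injective_algebraMap (algebraMap K L).injective
  have s1 : Function.Surjective (ev w (fun i a => algebraMap K L (P i a)) (c + 2)) := surj_base h1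
  have s2 : Function.Surjective (ev (fun i => w i - 1) (fun i a => algebraMap K L (P i a)) c) :=
    surj_base h2
  -- the multiplicities
  have hGm : A * B ∈ forms w (fun i a => algebraMap K L (P i a)) (c + 3) := by
    rw [hG]
    exact Submodule.sum_mem _ fun j _ => Submodule.smul_mem _ _ (map_mem_forms (b j).2)
  have hsp : ∀ i, ∃ u v, u + v = w i ∧ tau (fun a => algebraMap K L (P i a)) A ∈
      (idealOfVars (Fin 2) L) ^ u ∧ tau (fun a => algebraMap K L (P i a)) B ∈
        (idealOfVars (Fin 2) L) ^ v := by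
    intro i
    have h3 := (mem_forms.1 hGm).2 i
    rw [map_mul] at h3
    exact split_ord h3
  choose u v huv hu hv using hsp
  obtain rfl : w = fun i => u i + v i := funext fun i => (huv i).symm
  have hAm : A ∈ forms u (fun i a => algebraMap K L (P i a)) a := mem_forms.2 ⟨hA, hu⟩
  have hBm : B ∈ forms v (fun i a => algebraMap K L (P i a)) a' := mem_forms.2 ⟨hB, hv⟩
  -- the derivations
  obtain ⟨D', hD'⟩ : ∃ D' : Fin N → Derivation ℚ L L, ∀ i x, D' i x = D i x :=
    ⟨fun i => (D i).restrictScalars ℚ, fun i x => rfl⟩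
  have hDK : ∀ i (x : K), D' i (algebraMap K L x) = 0 := by
    intro i x
    rw [hD', Derivation.map_algebraMap]
  have hder : ∀ j, MvPolynomial.map (algebraMap K L) (b j : MvPolynomial (Fin 3) K) =
      A * dG (D' j) B + B * dG (D' j) A := by
    intro j
    have e1 : dG (D' j) (A * B) = A * dG (D' j) B + B * dG (D' j) A := by
      rw [dG_mul]
      ring
    rw [← e1, hG]
    ext s
    rw [coeff_dG, coeff_map, coeff_sum, map_sum]
    have e2 : ∀ i, D' j (coeff s (t i • MvPolynomial.map (algebraMap K L)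
        (b i : MvPolynomial (Fin 3) K))) =
        if j = i then algebraMap K L (coeff s (b i : MvPolynomial (Fin 3) K)) else 0 := by
      intro i
      rw [coeff_smul, coeff_map, smul_eq_mul, Derivation.leibniz, hDK, smul_zero, zero_add, hD',
        hD, smul_eq_mul]
      split_ifs <;> simp
    rw [Finset.sum_congr rfl fun i _ => e2 i, Finset.sum_ite_eq]
    simp
  -- all members
  have hN : Module.finrank L ↥(forms (fun i => u i + v i) (fun i a => algebraMap K L (P i a))
      (c + 3)) = N := by
    have e1 : Module.finrank L ↥(forms (fun i => u i + v i) (fun i a => algebraMap K L (P i a))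
      (c + 3)) + ∑ i, (u i + v i + 1).choose 2 = (c + 3 + 2).choose 2 :=
        finrank_of_surj (surj_succ s1)
    have e2 : Module.finrank K ↥(forms (fun i => u i + v i) P (c + 3)) +
      ∑ i, (u i + v i + 1).choose 2 = (c + 3 + 2).choose 2 := finrank_of_surj (surj_succ h1)
    have e3 := Module.finrank_eq_card_basis b
    rw [Fintype.card_fin] at e3
    omega
  have hall : ∀ F ∈ forms (fun i => u i + v i) (fun i a => algebraMap K L (P i a)) (a + a'),
      ∃ S ∈ forms v (fun i a => algebraMap K L (P i a)) a',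
        ∃ T ∈ forms u (fun i a => algebraMap K L (P i a)) a, F = A * S + B * T := by
    intro F hF
    rw [hab] at hF
    obtain ⟨x, hx⟩ := span_forms b hN hF
    refine ⟨∑ j, x j • dG (D' j) B, Submodule.sum_mem _ fun j _ => Submodule.smul_mem _ _
      (dG_forms _ (hDK j) hBm), ∑ j, x j • dG (D' j) A, Submodule.sum_mem _ fun j _ =>
      Submodule.smul_mem _ _ (dG_forms _ (hDK j) hAm), ?_⟩
    rw [hx, Finset.mul_sum, Finset.mul_sum, ← Finset.sum_add_distrib]
    refine Finset.sum_congr rfl fun j _ => ?_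
    rw [hder j, smul_add, mul_smul_comm, mul_smul_comm]
  -- relatively prime
  have hrel : IsRelPrime A B := by
    intro g hgA hgB
    refine unit_of_dvd s1 hA hA0 hgA fun F hF => ?_
    have hF' : F ∈ forms (fun i => u i + v i) (fun i a => algebraMap K L (P i a)) (a + a') := by
      rw [hab]
      exact hF
    obtain ⟨S, -, T, -, rfl⟩ := hall F hF'
    exact dvd_add (hgA.mul_right _) (hgB.mul_right _)
  have i1 := upper s1 (by omega) hAm hBm hB0 hall
  have i2 := lower (c := c) s2 (by omega) ha ha' hAm hBm hA0 hB0 hrel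
  omega

end Pool.Agent.U810.IR
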